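import Pool.Agent.Helper86.QA.St4

/-! # Project QD, part A: the energy (EGL) -/

set_option autoImplicit false

open MeasureTheory Matrix Set Topology Filter
open scoped ENNReal ComplexConjugate ComplexOrder

namespace Pool.Agent.Helper41.QA

open Pool.Agent.Helper86.QA Pool.Agent.Helper20
open Pool.Agent.Helper20.QD (Good Lam inn out mob)

private theorem eglMi (p z : ℂ) : mb (gi p) z = mi p z := by
  have h0 : ((gi p : SL) 0 0 : ℂ) = 0 := rfl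
  have h1 : ((gi p : SL) 0 1 : ℂ) = -1 := rfl
  have h2 : ((gi p : SL) 1 0 : ℂ) = 1 := rfl
  have h3 : ((gi p : SL) 1 1 : ℂ) = -p := rfl
  unfold mi mb
  rw [h0, h1, h2, h3]
  ring

private theorem eglDen (p z : ℂ) : (gi p : SL) 1 0 * z + (gi p : SL) 1 1 = z - p := by
  have h2 : ((gi p : SL) 1 0 : ℂ) = 1 := rfl
  have h3 : ((gi p : SL) 1 1 : ℂ) = -p := rfl
  rw [h2, h3]
  ring

private theorem eglNe {p z : ℂ} (hz : z ≠ p) : mi p z ≠ 0 := by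
  unfold mi
  exact div_ne_zero (by norm_num) (sub_ne_zero.2 hz)

private theorem eglInv {p z : ℂ} (hz : z ≠ p) : p - 1 / mi p z = z := by
  have h := sub_ne_zero.2 hz
  unfold mi
  field_simp
  ring

private theorem eglInv' {p w : ℂ} (hw : w ≠ 0) : mi p (p - 1 / w) = w := by
  unfold mi
  have h1 : p - 1 / w - p = - (1 / w) := by ring
  rw [h1]
  field_simp

private theorem eglImg {p : ℂ} {S : Set ℂ} (hS : p ∉ S) :
    mi p '' S = {w | w ≠ 0 ∧ p - 1 / w ∈ S} := by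
  ext w
  constructor
  · rintro ⟨z, hz, rfl⟩
    have hzp : z ≠ p := fun h => hS (h ▸ hz)
    exact ⟨eglNe hzp, by rw [eglInv hzp]; exact hz⟩
  · rintro ⟨hw, h⟩
    exact ⟨_, h, eglInv' hw⟩

private theorem eglMem {p z : ℂ} {S : Set ℂ} (hS : p ∉ S) (hz : z ≠ p) :
    mi p z ∈ mi p '' S ↔ z ∈ S := by
  rw [eglImg hS]
  constructor
  · rintro ⟨-, h⟩
    rwa [eglInv hz] at h
  · intro h
    exact ⟨eglNe hz, by rw [eglInv hz]; exact h⟩

private theorem eglMeas {p : ℂ} {S : Set ℂ} (hS : p ∉ S) (hm : MeasurableSet S) :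
    MeasurableSet (mi p '' S) := by
  rw [eglImg hS]
  have h1 : Measurable (fun w : ℂ => p - 1 / w) := by fun_prop
  exact (measurableSet_singleton (0 : ℂ)).compl.inter (h1 hm)

/-- Substitution `η = mi p ξ`. -/
private theorem eglSub (hCHV : StCHV) {p : ℂ} {S : Set ℂ} (hS : p ∉ S) (hm : MeasurableSet S)
    (f : ℂ → ℝ≥0∞) (hf : Measurable f) :
    ∫⁻ η in mi p '' S, f η = ∫⁻ ξ in S, f (mi p ξ) * ENNReal.ofReal (1 / ‖ξ - p‖ ^ 4) := by
  have hT := eglMeas hS hm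
  rw [← lintegral_indicator hT, ← hCHV.1 (gi p) _ (hf.indicator hT), ← lintegral_indicator hm]
  apply lintegral_congr
  intro ξ
  rw [eglDen, eglMi]
  by_cases h : ξ = p
  · subst h
    rw [Set.indicator_of_notMem hS]
    simp
  · by_cases hξ : ξ ∈ S
    · rw [Set.indicator_of_mem ((eglMem hS h).2 hξ), Set.indicator_of_mem hξ]
    · rw [Set.indicator_of_notMem (fun h' => hξ ((eglMem hS h).1 h')),
        Set.indicator_of_notMem hξ, zero_mul]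

private theorem eglAr (a b c : ℝ≥0∞) (h1 : a ≠ 0) (h2 : a ≠ ∞) :
    a * (c / (b * a)) = c * b⁻¹ := by
  rw [mul_comm b a, ENNReal.div_eq_inv_mul, ENNReal.mul_inv (Or.inl h1) (Or.inl h2)]
  calc a * (a⁻¹ * b⁻¹ * c) = (a * a⁻¹) * (c * b⁻¹) := by ring
    _ = c * b⁻¹ := by rw [ENNReal.mul_inv_cancel h1 h2, one_mul]

/-- The kernel with the two densities. -/
private noncomputable def eglK (u v : ℂ → ℝ≥0∞) (x y : ℂ) : ℝ≥0∞ :=
  ENNReal.ofReal (1 / ‖x - y‖ ^ 4) / (u x * v y)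

private theorem eglKm (u v : ℂ → ℝ≥0∞) (hu : Measurable u) (hv : Measurable v) :
    Measurable (fun q : ℂ × ℂ => eglK u v q.1 q.2) := by
  have m1 : Measurable (fun q : ℂ × ℂ => ENNReal.ofReal (1 / ‖q.1 - q.2‖ ^ 4)) := by fun_prop
  have m2 : Measurable (fun q : ℂ × ℂ => u q.1 * v q.2) :=
    (hu.comp measurable_fst).mul (hv.comp measurable_snd)
  exact m1.div m2

private theorem eglL1 (u v : ℂ → ℝ≥0∞) (hu : Measurable u) (hv : Measurable v) (B : Set ℂ)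
    (hB : MeasurableSet B) (hv1 : ∀ y ∈ B, v y ≠ 0 ∧ v y ≠ ∞) (x : ℂ)
    (hux : ∫⁻ y in B, ENNReal.ofReal (1 / ‖x - y‖ ^ 4) = u x) (h0 : u x ≠ 0) (h1 : u x ≠ ∞) :
    ∫⁻ y, eglK u v x y ∂((volume.restrict B).withDensity v) = 1 := by
  have hm1 : Measurable (fun y : ℂ => eglK u v x y) :=
    Measurable.of_uncurry_left (f := eglK u v) (eglKm u v hu hv)
  rw [lintegral_withDensity_eq_lintegral_mul _ hv hm1]
  have e1 : ∫⁻ y in B, (v * fun y : ℂ => eglK u v x y) y =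
      ∫⁻ y in B, ENNReal.ofReal (1 / ‖x - y‖ ^ 4) * (u x)⁻¹ := by
    apply setLIntegral_congr_fun hB
    intro y hy
    exact eglAr _ _ _ (hv1 y hy).1 (hv1 y hy).2
  rw [e1, lintegral_mul_const' _ _ (ENNReal.inv_ne_top.2 h0), hux]
  exact ENNReal.mul_inv_cancel h0 h1

private theorem eglSw (u v : ℂ → ℝ≥0∞) (x y : ℂ) : eglK u v x y = eglK v u y x := by
  unfold eglK
  rw [norm_sub_rev, mul_comm]

private theorem eglM1 (u : ℂ → ℝ≥0∞) (A D : Set ℂ) (hD : MeasurableSet D) (hs : D ⊆ A) :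
    ((volume.restrict A).withDensity u) D = ∫⁻ ξ in D, u ξ := by
  rw [withDensity_apply _ hD, Measure.restrict_restrict hD, inter_eq_left.2 hs]

/-- The two sides of SW0. -/
private theorem eglR (u v : ℂ → ℝ≥0∞) (hu : Measurable u) (hv : Measurable v) (A B : Set ℂ)
    (hA : MeasurableSet A) (hB : MeasurableSet B)
    (hu1 : ∀ x ∈ A, u x ≠ 0 ∧ u x ≠ ∞) (hv1 : ∀ y ∈ B, v y ≠ 0 ∧ v y ≠ ∞)
    (hux : ∀ x, ∫⁻ y in B, ENNReal.ofReal (1 / ‖x - y‖ ^ 4) = u x)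
    (hvx : ∀ x, ∫⁻ y in A, ENNReal.ofReal (1 / ‖x - y‖ ^ 4) = v x)
    (_hsA : SigmaFinite ((volume.restrict A).withDensity u))
    (_hsB : SigmaFinite ((volume.restrict B).withDensity v))
    (DA DB : Set ℂ) (hDA : MeasurableSet DA) (hsa : DA ⊆ A) (hDB : MeasurableSet DB)
    (hsb : DB ⊆ B)
    (key : ∫⁻ x in DA, ∫⁻ y, eglK u v x y ∂((volume.restrict B).withDensity v)
      ∂((volume.restrict A).withDensity u) = ∫⁻ x, ∫⁻ y in DB, eglK u v x y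
        ∂((volume.restrict B).withDensity v) ∂((volume.restrict A).withDensity u)) :
    ∫⁻ ξ in DA, u ξ = ∫⁻ ξ in DB, v ξ := by
  have R1 : ∫⁻ x in DA, ∫⁻ y, eglK u v x y ∂((volume.restrict B).withDensity v)
      ∂((volume.restrict A).withDensity u) = ∫⁻ ξ in DA, u ξ := by
    rw [setLIntegral_congr_fun hDA (g := fun _ => 1) (fun x hx =>
      eglL1 u v hu hv B hB hv1 x (hux x) (hu1 x (hsa hx)).1 (hu1 x (hsa hx)).2),
      setLIntegral_one, eglM1 u A DA hDA hsa]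
  have R2 : ∫⁻ x, ∫⁻ y in DB, eglK u v x y ∂((volume.restrict B).withDensity v)
      ∂((volume.restrict A).withDensity u) = ∫⁻ ξ in DB, v ξ := by
    rw [lintegral_lintegral_swap (eglKm u v hu hv).aemeasurable,
      setLIntegral_congr_fun hDB (g := fun _ => 1) (fun y hy => by
        have := eglL1 v u hv hu A hA hu1 y (hvx y) (hv1 y (hsb hy)).1 (hv1 y (hsb hy)).2
        rw [← this]
        exact lintegral_congr (fun x => eglSw u v x y)),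
      setLIntegral_one, eglM1 v B DB hDB hsb]
  rw [← R1, ← R2]
  exact key

/-- Invariance of the kernel. -/
private theorem eglI (u v : ℂ → ℝ≥0∞) (x y x' y' c d : ℂ) (hc : c ≠ 0) (hd : d ≠ 0)
    (e1 : x' - y' = (x - y) / (c * d)) (e2 : u x' = u x * ENNReal.ofReal (‖c‖ ^ 4))
    (e3 : v y' = v y * ENNReal.ofReal (‖d‖ ^ 4)) : eglK u v x' y' = eglK u v x y := by
  have hu' : 0 < ‖c‖ := norm_pos_iff.2 hc
  have hv' : 0 < ‖d‖ := norm_pos_iff.2 hd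
  unfold eglK
  rw [e1, e2, e3]
  have e4 : 1 / ‖(x - y) / (c * d)‖ ^ 4 = 1 / ‖x - y‖ ^ 4 * (‖c‖ ^ 4 * ‖d‖ ^ 4) := by
    rw [norm_div, norm_mul, div_pow, mul_pow, one_div_div]
    ring
  rw [e4, ENNReal.ofReal_mul (by positivity), ENNReal.ofReal_mul (by positivity)]
  have e5 : u x * ENNReal.ofReal (‖c‖ ^ 4) * (v y * ENNReal.ofReal (‖d‖ ^ 4)) = (u x * v y) *
      (ENNReal.ofReal (‖c‖ ^ 4) * ENNReal.ofReal (‖d‖ ^ 4)) := by ring
  rw [e5]
  apply ENNReal.mul_div_mul_right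
  · refine mul_ne_zero ?_ ?_
    · exact (ENNReal.ofReal_pos.2 (by positivity)).ne'
    · exact (ENNReal.ofReal_pos.2 (by positivity)).ne'
  · exact ENNReal.mul_ne_top ENNReal.ofReal_ne_top ENNReal.ofReal_ne_top

/-- The energy is symmetric. -/
private theorem eglSym (hCHV : StCHV) (hSW0 : StSW0) (hAWB : StAWB) (hACU : StACU)
    {Γ : Type} [Group Γ] (ρ : Γ →* SL) (A B : Set ℂ) (h : KD ρ A B) (DA DB : Set ℂ)
    (hDA : FDOn (ab ρ) A DA) (hDB : FDOn (ab ρ) B DB) :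
    ∫⁻ ξ in DA, aw B ξ = ∫⁻ ξ in DB, aw A ξ := by
  obtain ⟨hcount, -, hAa, hsA, -, -, hBA⟩ := hACU Γ ρ A B h
  obtain ⟨-, -, hAb, hsB, -, -, -⟩ := hACU Γ ρ B A hBA
  obtain ⟨mB, -, fB, tB⟩ := hAWB Γ ρ A B h
  obtain ⟨mA', -, fA, tA⟩ := hAWB Γ ρ B A hBA
  have hBne : ∀ x ∈ A, aw B x ≠ 0 ∧ aw B x ≠ ∞ := fun x hx => ⟨fun h0 => by
    have := (fB x hx).2
    rw [h0] at this
    simp at this, (fB x hx).1⟩
  have hAne : ∀ y ∈ B, aw A y ≠ 0 ∧ aw A y ≠ ∞ := fun x hx => ⟨fun h0 => by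
    have := (fA x hx).2
    rw [h0] at this
    simp at this, (fA x hx).1⟩
  have key := hSW0 Γ ℂ ℂ (ab ρ) (ab ρ) A DA B DB (mA A B) (mA B A)
    (eglK (aw B) (aw A)) hAa hAb hDA hDB (eglKm _ _ mB mA') (fun γ x hx y hy =>
      eglI (aw B) (aw A) x y (ab ρ γ x) (ab ρ γ y) _ _ (h.mpA γ x hx).1 (h.mpB γ y hy).1
        (hCHV.2.2.1 (ρ γ) x y (h.mpA γ x hx).1 (h.mpB γ y hy).1) (tB γ x hx) (tA γ y hy))
  exact eglR (aw B) (aw A) mB mA' A B h.opA.measurableSet h.opB.measurableSet hBne hAne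
    (fun x => rfl) (fun x => rfl) hsA hsB DA DB hDA.mD hDA.sub hDB.mD hDB.sub key

theorem hEGL (hCHV : StCHV) (hSW0 : StSW0) (hAWB : StAWB) (hACU : StACU) (hTJ2 : QD.StTJ2) :
    StEGL := by
  intro Γ _ ρ p hG hp hKD DA FB hDA hFB
  have hpi : p ∉ inn (Lam ρ) := fun h => h.1 hp
  have hpo : p ∉ out (Lam ρ) := fun h => h.1 hp
  have hFp : p ∉ FB := fun h => hpi (hFB.sub h)
  obtain ⟨β, hβ⟩ := hG.jordan
  have hom : MeasurableSet (out (Lam ρ)) := (hTJ2 β _ hβ).2.2.2.1.measurableSet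
  have hact : ∀ γ : Γ, ∀ z ∈ inn (Lam ρ),
      ab (QD.cj (gi p) ρ) γ (mi p z) = mi p (mob (ρ γ) z) := by
    intro γ z hz
    have hzp : z ≠ p := fun h => hpi (h ▸ hz)
    have h1 := (hCHV.2.1 (QD.cj (gi p) ρ γ) (gi p) z
      (by rw [eglDen]; exact sub_ne_zero.2 hzp)).1
    have h2 := (hCHV.2.1 (gi p) (ρ γ) z (hG.side γ z hz).1).1
    have h3 : QD.cj (gi p) ρ γ * gi p = gi p * ρ γ := by
      show gi p * ρ γ * (gi p)⁻¹ * gi p = gi p * ρ γ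
      rw [inv_mul_cancel_right]
    rw [h3, h2] at h1
    rw [eglMi, eglMi] at h1
    exact h1.symm
  have hDB : FDOn (ab (QD.cj (gi p) ρ)) (sB ρ p) (mi p '' FB) := by
    refine ⟨eglMeas hFp hFB.mD, image_mono hFB.sub, ?_⟩
    rintro _ ⟨z, hz, rfl⟩
    obtain ⟨γ, hγ, hu⟩ := hFB.ex z hz
    refine ⟨γ, ?_, ?_⟩
    · show ab (QD.cj (gi p) ρ) γ (mi p z) ∈ mi p '' FB
      rw [hact γ z hz]
      exact mem_image_of_mem _ hγ
    · intro δ hδ
      have hδ' : ab (QD.cj (gi p) ρ) δ (mi p z) ∈ mi p '' FB := hδ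
      rw [hact δ z hz] at hδ'
      apply hu
      have hne : mob (ρ δ) z ≠ p := fun h => hpi (h ▸ (hG.side δ z hz).2)
      exact (eglMem hFp hne).1 hδ'
  rw [eglSym hCHV hSW0 hAWB hACU (QD.cj (gi p) ρ) (sA ρ p) (sB ρ p) hKD DA _ hDA hDB]
  obtain ⟨-, -, -, -, -, -, hBA⟩ := hACU Γ _ _ _ hKD
  obtain ⟨mA', -, -, -⟩ := hAWB Γ _ _ _ hBA
  rw [eglSub hCHV hFp hFB.mD _ mA']
  apply setLIntegral_congr_fun hFB.mD
  intro z hz
  have hzp : z ≠ p := fun h => hFp (h ▸ hz)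
  have hzp' : 0 < ‖z - p‖ := norm_pos_iff.2 (sub_ne_zero.2 hzp)
  have e1 : aw (sA ρ p) (mi p z) = ENNReal.ofReal (‖z - p‖ ^ 4) *
      ∫⁻ ξ in out (Lam ρ), ENNReal.ofReal (1 / ‖ξ - z‖ ^ 4) := by
    unfold aw sA
    rw [setLIntegral_congr (insert_ae_eq_self (0 : ℂ) (mi p '' out (Lam ρ))),
      eglSub hCHV hpo hom (fun η => ENNReal.ofReal (1 / ‖mi p z - η‖ ^ 4)) (by fun_prop),
      ← lintegral_const_mul' _ _ ENNReal.ofReal_ne_top]
    apply setLIntegral_congr_fun hom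
    intro ξ hξ
    have hξp : ξ ≠ p := fun h => hpo (h ▸ hξ)
    have hξp' : 0 < ‖ξ - p‖ := norm_pos_iff.2 (sub_ne_zero.2 hξp)
    show ENNReal.ofReal (1 / ‖mi p z - mi p ξ‖ ^ 4) * ENNReal.ofReal (1 / ‖ξ - p‖ ^ 4) =
      ENNReal.ofReal (‖z - p‖ ^ 4) * ENNReal.ofReal (1 / ‖ξ - z‖ ^ 4)
    rw [← ENNReal.ofReal_mul (by positivity), ← ENNReal.ofReal_mul (by positivity)]
    congr 1
    have e2 : mi p z - mi p ξ = (z - ξ) / ((z - p) * (ξ - p)) := by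
      have h1 := sub_ne_zero.2 hzp
      have h2 := sub_ne_zero.2 hξp
      unfold mi
      field_simp
      ring
    rw [e2, norm_div, norm_mul, div_pow, mul_pow, one_div_div, norm_sub_rev z ξ]
    field_simp
  show aw (sA ρ p) (mi p z) * ENNReal.ofReal (1 / ‖z - p‖ ^ 4) =
    ∫⁻ ξ in out (Lam ρ), ENNReal.ofReal (1 / ‖ξ - z‖ ^ 4)
  rw [e1, mul_comm (ENNReal.ofReal (‖z - p‖ ^ 4)), mul_assoc,
    ← ENNReal.ofReal_mul (by positivity)]
  have e3 : ‖z - p‖ ^ 4 * (1 / ‖z - p‖ ^ 4) = 1 := by field_simp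
  rw [e3, ENNReal.ofReal_one, mul_one]

end Pool.Agent.Helper41.QA
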